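import Pool.Agent.Y706.BI.Stm

/-!
# BI-DSC: descent to the field generated by the cross ratios
-/

set_option autoImplicit false

namespace Pool.Agent.Y484.BI

open Pool.Agent.W277.UB Pool.Agent.W277.UG Pool.Agent.W277.UH Finset Polynomial

section lin

variable {L : Type*} [Field L]

/-- evaluation of the conjugate -/
lemma hc_lin_eval (d : ℕ) (A : Polynomial L) (hA : A.natDegree ≤ d) (a b c e y : L)
    (h : c * y + e ≠ 0) :
    (hc d A (C a * X + C b) (C c * X + C e)).eval y =
      (c * y + e) ^ d * A.eval ((a * y + b) / (c * y + e)) := by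
  have e1 : eval y (C a * X + C b) = a * y + b := by simp
  have e2 : eval y (C c * X + C e) = c * y + e := by simp
  rw [hc_eval, e1, e2, hev_eval _ _ hA _ h]

/-- the conjugate of a coprime pair of degree `d` is a coprime pair of degree `d` -/
lemma hc_lin_coprime (d : ℕ) (A B : Polynomial L) (hA : A.natDegree ≤ d) (hB : B.natDegree ≤ d)
    (hco : IsCoprime A B) (hd : A.coeff d ≠ 0 ∨ B.coeff d ≠ 0) (a b c e : L)
    (hdet : a * e - b * c ≠ 0) :
    IsCoprime (hc d A (C a * X + C b) (C c * X + C e)) (hc d B (C a * X + C b) (C c * X + C e)) := by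
  refine (isCoprime_iff_aeval_ne_zero_of_isAlgClosed (k := L) (AlgebraicClosure L) _ _).mpr ?_
  intro y
  by_contra hcon
  push Not at hcon
  obtain ⟨h1, h2⟩ := hcon
  rw [hc_aeval] at h1 h2
  set φ := algebraMap L (AlgebraicClosure L) with hφ
  have e1 : aeval y (C a * X + C b) = φ a * y + φ b := by simp [hφ]
  have e2 : aeval y (C c * X + C e) = φ c * y + φ e := by simp [hφ]
  rw [e1, e2] at h1 h2
  have hAd : (A.map φ).natDegree ≤ d := natDegree_map_le.trans hA
  have hBd : (B.map φ).natDegree ≤ d := natDegree_map_le.trans hB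
  obtain ⟨u, w, huw⟩ := hco
  by_cases hq : φ c * y + φ e = 0
  · have hp : φ a * y + φ b ≠ 0 := by
      intro hp
      apply hdet
      have h3 : φ (a * e - b * c) = 0 := by
        rw [map_sub, map_mul, map_mul]
        linear_combination φ a * hq - φ c * hp
      exact (map_eq_zero φ).mp h3
    rw [hq, hev_zero] at h1 h2
    have g1 := (mul_eq_zero.mp h1).resolve_right (pow_ne_zero _ hp)
    have g2 := (mul_eq_zero.mp h2).resolve_right (pow_ne_zero _ hp)
    rw [coeff_map] at g1 g2
    rcases hd with h | h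
    · exact h ((map_eq_zero φ).mp g1)
    · exact h ((map_eq_zero φ).mp g2)
  · rw [hev_eval _ _ hAd _ hq] at h1
    rw [hev_eval _ _ hBd _ hq] at h2
    have g1 := (mul_eq_zero.mp h1).resolve_left (pow_ne_zero _ hq)
    have g2 := (mul_eq_zero.mp h2).resolve_left (pow_ne_zero _ hq)
    simp only at g1 g2
    rw [eval_map_algebraMap] at g1 g2
    have := congrArg (aeval ((φ a * y + φ b) / (φ c * y + φ e) : AlgebraicClosure L)) huw
    rw [map_add, map_mul, map_mul, g1, g2, mul_zero, mul_zero, add_zero, map_one] at this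
    exact zero_ne_one this

/-- the coefficient of degree `d` -/
lemma hc_lin_coeff (d : ℕ) (A : Polynomial L) (hA : A.natDegree ≤ d) (a b c e : L) (hc0 : c ≠ 0) :
    (hc d A (C a * X + C b) (C c * X + C e)).coeff d = c ^ d * A.eval (a / c) := by
  have h1 := hc_coeff d 1 A _ _ (lin_deg a b) (lin_deg c e)
  rw [mul_one] at h1
  have e1 : (C a * X + C b).coeff 1 = a := by simp [coeff_C]
  have e2 : (C c * X + C e).coeff 1 = c := by simp [coeff_C]
  rw [h1, e1, e2, hev_eval _ _ hA _ hc0]

/-- the form of degree `d` -/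
lemma hc_lin_max (d : ℕ) (A B : Polynomial L) (hA : A.natDegree ≤ d) (hB : B.natDegree ≤ d)
    (hco : IsCoprime A B) (a b c e : L) (hc0 : c ≠ 0) :
    (hc d A (C a * X + C b) (C c * X + C e)).coeff d ≠ 0 ∨
      (hc d B (C a * X + C b) (C c * X + C e)).coeff d ≠ 0 := by
  rw [hc_lin_coeff d A hA a b c e hc0, hc_lin_coeff d B hB a b c e hc0]
  by_contra hcon
  push Not at hcon
  obtain ⟨h1, h2⟩ := hcon
  have g1 := (mul_eq_zero.mp h1).resolve_left (pow_ne_zero _ hc0)
  have g2 := (mul_eq_zero.mp h2).resolve_left (pow_ne_zero _ hc0)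
  obtain ⟨u, w, huw⟩ := hco
  have := congrArg (eval (a / c)) huw
  rw [eval_add, eval_mul, eval_mul, g1, g2, mul_zero, mul_zero, add_zero, eval_one] at this
  exact zero_ne_one this

/-- linearity -/
lemma hc_C_mul (n : ℕ) (m : L) (A P Q : Polynomial L) : hc n (C m * A) P Q = C m * hc n A P Q := by
  unfold hc hev
  rw [Finset.mul_sum]
  apply Finset.sum_congr rfl
  intro i _
  rw [Polynomial.map_mul, map_C, coeff_C_mul]
  ring

end lin

/-- proportional forms -/
lemma prop_forms {L : Type*} [Field L] (d : ℕ) (u w U W : Polynomial L) (hco : IsCoprime u w)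
    (hu0 : u ≠ 0) (hw0 : w ≠ 0) (hmax : u.natDegree = d ∨ w.natDegree = d)
    (hU : U.natDegree ≤ d) (hW : W.natDegree ≤ d) (hne : U ≠ 0 ∨ W ≠ 0) (h : u * W = w * U) :
    ∃ m : L, m ≠ 0 ∧ U = C m * u ∧ W = C m * w := by
  have h1 : u ∣ U := hco.dvd_of_dvd_mul_left ⟨W, h.symm⟩
  obtain ⟨μ, hμ⟩ := h1
  have h2 : W = w * μ := by
    apply mul_left_cancel₀ hu0
    rw [h, hμ]
    ring
  have hμ0 : μ ≠ 0 := by
    rintro rfl
    rw [mul_zero] at hμ h2
    rcases hne with h | h
    · exact h hμ
    · exact h h2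
  have hdeg : μ.natDegree = 0 := by
    rcases hmax with hm | hm
    · rw [hμ, natDegree_mul hu0 hμ0] at hU
      omega
    · rw [h2, natDegree_mul hw0 hμ0] at hW
      omega
  obtain ⟨m, hm⟩ : ∃ m, μ = C m := ⟨μ.coeff 0, eq_C_of_natDegree_eq_zero hdeg⟩
  refine ⟨m, ?_, ?_, ?_⟩
  · rintro rfl
    rw [C_0] at hm
    exact hμ0 hm
  · rw [hμ, hm, mul_comm]
  · rw [h2, hm, mul_comm]

open Pool.Agent.Y706.BI

universe u v

theorem t_DSC : S_DSC.{u, v} := by
  intro E L _ _ _ _ d hd p q hp hq hpq P hP hcard x0 hx0 x1 hx1 x2 hx2 h01 h02 h12 hcr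
  classical
  obtain ⟨a, ha⟩ : ∃ a, a = x1 - x2 := ⟨_, rfl⟩
  obtain ⟨b, hb⟩ : ∃ b, b = -(x0 * (x1 - x2)) := ⟨_, rfl⟩
  obtain ⟨c, hcc⟩ : ∃ c, c = x1 - x0 := ⟨_, rfl⟩
  obtain ⟨e, he⟩ : ∃ e, e = -(x2 * (x1 - x0)) := ⟨_, rfl⟩
  rw [← hb, ← he, ← ha, ← hcc]
  have hdet : a * e - b * c ≠ 0 := by
    have : a * e - b * c = (x1 - x2) * (x1 - x0) * (x0 - x2) := by
      rw [ha, hb, hcc, he]
      ring
    rw [this]
    exact mul_ne_zero (mul_ne_zero (sub_ne_zero.mpr h12) (sub_ne_zero.mpr h01.symm))
      (sub_ne_zero.mpr h02)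
  have hc0 : c ≠ 0 := by
    rw [hcc]
    exact sub_ne_zero.mpr h01.symm
  have hce : ∀ x, x ≠ x2 → c * x + e ≠ 0 := by
    intro x hx
    have : c * x + e = (x1 - x0) * (x - x2) := by
      rw [hcc, he]
      ring
    rw [this]
    exact mul_ne_zero (sub_ne_zero.mpr h01.symm) (sub_ne_zero.mpr hx)
  set T := P.erase x2 with hTdef
  have hT' : ∀ x ∈ T, ∃ s : E, algebraMap E L s = (a * x + b) / (c * x + e) := by
    intro x hx
    rw [hTdef, Finset.mem_erase] at hx
    obtain ⟨s, hs⟩ := hcr x hx.2 hx.1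
    refine ⟨s, ?_⟩
    rw [hs]
    unfold cross
    congr 1
    · rw [ha, hb]
      ring
    · rw [hcc, he]
      ring
  choose! s hs using hT'
  have hx2 : ∀ x ∈ T, x ≠ x2 := fun x hx => (Finset.mem_erase.mp hx).1
  -- inverse coordinates
  have hinvx : ∀ x, x ≠ x2 → a - c * ((a * x + b) / (c * x + e)) ≠ 0 ∧
      (e * ((a * x + b) / (c * x + e)) - b) / (a - c * ((a * x + b) / (c * x + e))) = x ∧
      (c * x + e) * (a - c * ((a * x + b) / (c * x + e))) = a * e - b * c := by
    intro x hx
    have h1 := hce x hx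
    have h2 : a - c * ((a * x + b) / (c * x + e)) = (a * e - b * c) / (c * x + e) := by
      rw [eq_div_iff h1, sub_mul, mul_assoc, div_mul_cancel₀ _ h1]
      ring
    have h3 : e * ((a * x + b) / (c * x + e)) - b = (a * e - b * c) * x / (c * x + e) := by
      rw [eq_div_iff h1, sub_mul, mul_assoc, div_mul_cancel₀ _ h1]
      ring
    rw [h2, h3]
    refine ⟨div_ne_zero hdet h1, ?_, ?_⟩
    · field_simp
    · field_simp
  -- the forms
  set P1 := C a * p + C b * q with hP1
  set P2 := C c * p + C e * q with hP2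
  have hP1d : P1.natDegree ≤ d := (natDegree_add_le _ _).trans
    (max_le ((natDegree_C_mul_le _ _).trans hp) ((natDegree_C_mul_le _ _).trans hq.le))
  have hP2d : P2.natDegree ≤ d := (natDegree_add_le _ _).trans
    (max_le ((natDegree_C_mul_le _ _).trans hp) ((natDegree_C_mul_le _ _).trans hq.le))
  have hq12 : C (a * e - b * c) * q = C a * P2 - C c * P1 := by
    rw [hP1, hP2]
    simp only [C_sub, C_mul]
    ring
  have hp12 : C (a * e - b * c) * p = C e * P1 - C b * P2 := by
    rw [hP1, hP2]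
    simp only [C_sub, C_mul]
    ring
  have hCdet : IsUnit (C (a * e - b * c)) := isUnit_C.mpr (isUnit_iff_ne_zero.mpr hdet)
  have hcoP : IsCoprime P1 P2 := by
    obtain ⟨α, β, hαβ⟩ := hpq
    have h1 : C (a * e - b * c) = (α * C e - β * C c) * P1 + (β * C a - α * C b) * P2 := by
      calc C (a * e - b * c) = C (a * e - b * c) * (α * p + β * q) := by rw [hαβ, mul_one]
        _ = α * (C (a * e - b * c) * p) + β * (C (a * e - b * c) * q) := by ring
        _ = _ := by rw [hp12, hq12]; ring
    obtain ⟨r, hr⟩ := hCdet.exists_left_inv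
    refine ⟨r * (α * C e - β * C c), r * (β * C a - α * C b), ?_⟩
    rw [mul_assoc, mul_assoc, ← mul_add, ← h1, hr]
  have hPd : P1.coeff d ≠ 0 ∨ P2.coeff d ≠ 0 := by
    by_contra hcon
    push Not at hcon
    have h1 := congrArg (fun g => g.coeff d) hq12
    simp only [coeff_sub, coeff_C_mul] at h1
    rw [hcon.1, hcon.2, mul_zero, mul_zero, sub_zero] at h1
    have h2 := (mul_eq_zero.mp h1).resolve_left hdet
    rw [← hq] at h2
    have h3 : q = 0 := leadingCoeff_eq_zero.mp h2
    rw [h3, natDegree_zero] at hq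
    omega
  set uK := hc d P1 (C e * X + C (-b)) (C (-c) * X + C a) with huK
  set wK := hc d P2 (C e * X + C (-b)) (C (-c) * X + C a) with hwK
  have huKd : uK.natDegree ≤ d := by
    have := hc_degree d 1 P1 _ _ (lin_deg e (-b)) (lin_deg (-c) a)
    rwa [mul_one] at this
  have hwKd : wK.natDegree ≤ d := by
    have := hc_degree d 1 P2 _ _ (lin_deg e (-b)) (lin_deg (-c) a)
    rwa [mul_one] at this
  have hcoK : IsCoprime uK wK := hc_lin_coprime d P1 P2 hP1d hP2d hcoP hPd e (-b) (-c) a (by
    intro h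
    apply hdet
    linear_combination h)
  have hmaxK : uK.coeff d ≠ 0 ∨ wK.coeff d ≠ 0 :=
    hc_lin_max d P1 P2 hP1d hP2d hcoP e (-b) (-c) a (neg_ne_zero.mpr hc0)
  have hmaxK' : uK.natDegree = d ∨ wK.natDegree = d := by
    rcases hmaxK with h | h
    · exact Or.inl (le_antisymm huKd (le_natDegree_of_ne_zero h))
    · exact Or.inr (le_antisymm hwKd (le_natDegree_of_ne_zero h))
  have hval : ∀ (A : Polynomial L), A.natDegree ≤ d → ∀ x, x ≠ x2 →
      (hc d A (C e * X + C (-b)) (C (-c) * X + C a)).eval ((a * x + b) / (c * x + e)) =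
        (a - c * ((a * x + b) / (c * x + e))) ^ d * A.eval x := by
    intro A hA x hx
    obtain ⟨h1, h2, _⟩ := hinvx x hx
    have h3 : -c * ((a * x + b) / (c * x + e)) + a = a - c * ((a * x + b) / (c * x + e)) := by ring
    rw [hc_lin_eval d A hA e (-b) (-c) a _ (by rw [h3]; exact h1), h3, ← sub_eq_add_neg, h2]
  -- the forms over the large field are conjugate
  have hTcard : P.card = T.card + 1 := by
    rw [hTdef, Finset.card_erase_of_mem ‹x2 ∈ P›]
    have : 0 < P.card := by omega
    omega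
  have hconj : ∀ A : Polynomial L, A.natDegree ≤ d →
      hc d (hc d A (C e * X + C (-b)) (C (-c) * X + C a)) (C a * X + C b) (C c * X + C e) =
        C ((a * e - b * c) ^ d) * A := by
    intro A hA
    have hAd : (hc d A (C e * X + C (-b)) (C (-c) * X + C a)).natDegree ≤ d := by
      have := hc_degree d 1 A _ _ (lin_deg e (-b)) (lin_deg (-c) a)
      rwa [mul_one] at this
    rw [← sub_eq_zero]
    apply eq_zero_of_natDegree_lt_card_of_eval_eq_zero' _ T
    · intro x hx
      have h1 := hx2 x hx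
      rw [eval_sub, hc_lin_eval d _ hAd a b c e x (hce x h1), hval A hA x h1, eval_mul, eval_C,
        ← mul_assoc, ← mul_pow, (hinvx x h1).2.2, sub_self]
    · have h1 := hc_degree d 1 (hc d A (C e * X + C (-b)) (C (-c) * X + C a)) _ _ (lin_deg a b)
        (lin_deg c e)
      rw [mul_one] at h1
      refine lt_of_le_of_lt ((natDegree_sub_le _ _).trans (max_le h1
        ((natDegree_C_mul_le _ _).trans hA))) ?_
      omega
  -- the points
  set fz : L → L := fun x => p.eval x / q.eval x with hfz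
  set U := T.filter fun x => fz x ∈ T with hU
  have hTP : T ⊆ P := Finset.erase_subset _ _
  have hUP : U ⊆ P := (Finset.filter_subset _ _).trans hTP
  have hUc : 2 * d + 1 ≤ U.card := by
    have h1 : P ⊆ insert x2 (U ∪ P.filter fun x => fz x = x2) := by
      intro x hx
      rw [Finset.mem_insert, Finset.mem_union]
      by_cases h1 : x = x2
      · exact Or.inl h1
      by_cases h2 : fz x = x2
      · exact Or.inr (Or.inr (Finset.mem_filter.mpr ⟨hx, h2⟩))
      exact Or.inr (Or.inl (Finset.mem_filter.mpr ⟨Finset.mem_erase.mpr ⟨h1, hx⟩,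
        Finset.mem_erase.mpr ⟨h2, (hP x hx).2⟩⟩))
    have h2 : (P.filter fun x => fz x = x2).card ≤ d := by
      have hfy : p - C x2 * q ≠ 0 := by
        intro h0
        have h3 : p = C x2 * q := sub_eq_zero.mp h0
        rw [h3] at hpq
        have h4 : IsUnit q := by
          obtain ⟨α, β, hab⟩ := hpq
          apply IsUnit.of_mul_eq_one (α * C x2 + β)
          rw [← hab]
          ring
        have := natDegree_eq_zero_of_isUnit h4
        omega
      have h3 : (P.filter fun x => fz x = x2) ⊆ (p - C x2 * q).roots.toFinset := by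
        intro x hx
        rw [Finset.mem_filter] at hx
        rw [Multiset.mem_toFinset, mem_roots hfy, IsRoot.def, eval_sub, eval_mul, eval_C]
        have h4 := (hP x hx.1).1
        have h5 : p.eval x / q.eval x = x2 := hx.2
        rw [div_eq_iff h4] at h5
        rw [h5, sub_self]
      refine (Finset.card_le_card h3).trans ((Multiset.toFinset_card_le _).trans ?_)
      refine (card_roots' _).trans ?_
      refine (natDegree_sub_le _ _).trans (max_le hp ?_)
      exact (natDegree_C_mul_le _ _).trans hq.le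
    have h3 := Finset.card_le_card h1
    have h4 := Finset.card_insert_le x2 (U ∪ P.filter fun x => fz x = x2)
    have h5 := Finset.card_union_le U (P.filter fun x => fz x = x2)
    omega
  have hrel : ∀ x ∈ U, uK.eval (algebraMap E L (s x)) =
      algebraMap E L (s (fz x)) * wK.eval (algebraMap E L (s x)) := by
    intro x hx
    rw [hU, Finset.mem_filter] at hx
    obtain ⟨h1, h3⟩ := hx
    have h4 := hce _ (hx2 _ h3)
    have h6 := (hP x (hTP h1)).1
    rw [hs x h1, huK, hwK, hval P1 hP1d x (hx2 x h1), hval P2 hP2d x (hx2 x h1), hs _ h3, hP1, hP2]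
    simp only [eval_add, eval_mul, eval_C]
    obtain ⟨y, hy⟩ : ∃ y, y = fz x := ⟨_, rfl⟩
    have h5 : p.eval x = y * q.eval x := by
      rw [hy, hfz]
      field_simp
    rw [← hy] at h4 ⊢
    rw [h5]
    field_simp
  have hu0 : uK ≠ 0 := by
    intro h0
    rw [h0] at hcoK hmaxK'
    have h1 : IsUnit wK := isCoprime_zero_left.mp hcoK
    have h2 := natDegree_eq_zero_of_isUnit h1
    rw [natDegree_zero] at hmaxK'
    omega
  have hw0 : wK ≠ 0 := by
    intro h0
    rw [h0] at hcoK hmaxK'
    have h1 : IsUnit uK := isCoprime_zero_right.mp hcoK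
    have h2 := natDegree_eq_zero_of_isUnit h1
    rw [natDegree_zero] at hmaxK'
    omega
  obtain ⟨l, hl⟩ : ∃ l : Module.Dual E L, l uK.leadingCoeff ≠ 0 := by
    by_contra hcon
    push Not at hcon
    exact (leadingCoeff_ne_zero.mpr hu0)
      ((Module.forall_dual_apply_eq_zero_iff E uK.leadingCoeff).mp hcon)
  set u := lpoly l d uK with hu
  set w := lpoly l d wK with hw
  have huw : ∀ x ∈ U, u.eval (s x) = s (fz x) * w.eval (s x) := by
    intro x hx
    rw [hu, hw, lpoly_eval l d uK huKd, lpoly_eval l d wK hwKd, hrel x hx, ← Algebra.smul_def,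
      map_smul, smul_eq_mul]
  have hune : u ≠ 0 := by
    intro h0
    have h1 := lpoly_coeff l d uK _ huKd
    rw [← hu, h0, coeff_zero] at h1
    exact hl h1.symm
  have hud : (u.map (algebraMap E L)).natDegree ≤ d :=
    natDegree_map_le.trans (lpoly_degree l d uK)
  have hwd : (w.map (algebraMap E L)).natDegree ≤ d :=
    natDegree_map_le.trans (lpoly_degree l d wK)
  have hinj : Set.InjOn (fun x => algebraMap E L (s x)) (U : Set L) := by
    intro x hx y hy hxy
    have hx' : x ∈ T := (Finset.mem_filter.mp (Finset.mem_coe.mp hx)).1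
    have hy' : y ∈ T := (Finset.mem_filter.mp (Finset.mem_coe.mp hy)).1
    simp only at hxy
    rw [hs x hx', hs y hy'] at hxy
    have h1 := (hinvx x (hx2 x hx')).2.1
    have h2 := (hinvx y (hx2 y hy')).2.1
    rw [← h1, ← h2, hxy]
  have hprod : uK * w.map (algebraMap E L) = wK * u.map (algebraMap E L) := by
    rw [← sub_eq_zero]
    apply eq_zero_of_natDegree_lt_card_of_eval_eq_zero' _ (U.image fun x => algebraMap E L (s x))
    · intro z hz
      obtain ⟨x, hx, rfl⟩ := Finset.mem_image.mp hz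
      rw [eval_sub, eval_mul, eval_mul, hrel x hx, eval_map_algebraMap, eval_map_algebraMap,
        aeval_algebraMap_apply, aeval_algebraMap_apply]
      simp only [coe_aeval_eq_eval]
      rw [huw x hx, map_mul]
      ring
    · rw [Finset.card_image_of_injOn hinj]
      refine lt_of_le_of_lt (natDegree_sub_le _ _) ?_
      have h1 := (natDegree_mul_le (p := uK) (q := w.map (algebraMap E L)))
      have h2 := (natDegree_mul_le (p := wK) (q := u.map (algebraMap E L)))
      have h3 : max (uK * w.map (algebraMap E L)).natDegree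
          (wK * u.map (algebraMap E L)).natDegree ≤ 2 * d := max_le (by omega) (by omega)
      omega
  obtain ⟨m, hm0, hmu, hmw⟩ := prop_forms d uK wK (u.map (algebraMap E L)) (w.map (algebraMap E L))
    hcoK hu0 hw0 hmaxK' hud hwd (Or.inl (by
      rwa [Ne, Polynomial.map_eq_zero])) hprod
  have hCm : IsUnit (C m) := isUnit_C.mpr (isUnit_iff_ne_zero.mpr hm0)
  refine ⟨u, w, ?_, ?_, hdet, m * (a * e - b * c) ^ d, mul_ne_zero hm0 (pow_ne_zero _ hdet), ?_, ?_⟩
  · rw [← isCoprime_map (algebraMap E L), hmu, hmw]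
    exact (isCoprime_mul_unit_left hCm _ _).mpr hcoK
  · have h1 : u.natDegree = uK.natDegree := by
      rw [← natDegree_map (algebraMap E L), hmu, natDegree_C_mul hm0]
    have h2 : w.natDegree = wK.natDegree := by
      rw [← natDegree_map (algebraMap E L), hmw, natDegree_C_mul hm0]
    rw [h1, h2]
    rcases hmaxK' with h | h
    · rw [h, max_eq_left hwKd]
    · rw [h, max_eq_right huKd]
  · rw [hmu, hc_C_mul, huK, hconj P1 hP1d, ← mul_assoc, ← C_mul]
  · rw [hmw, hc_C_mul, hwK, hconj P2 hP2d, ← mul_assoc, ← C_mul]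

end Pool.Agent.Y484.BI
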